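import Pool.Agent.H.MP_110370_an.A

namespace Pool.Agent.Results.MP_110370_an.Yes

open Finset Nat NNReal Pool.Agent.H.MP_110370_an

open scoped Classical in
/-- The norm in `L^(2d)` of the extension of `f` from the moment curve. -/
noncomputable def extNorm {F : Type} [Field F] [Fintype F] (ψ : AddChar F ℂ) (d : ℕ) (f : F → ℂ) : ℝ :=
  (∑ x : Fin d → F, ‖(Fintype.card F : ℂ)⁻¹ * ∑ t, f t * ψ (∑ i, x i * t ^ (i.1 + 1))‖ ^ (2 * d)) ^
    ((2 * d : ℝ)⁻¹)

noncomputable def l2Norm {F : Type} [Fintype F] (f : F → ℂ) : ℝ :=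
  √((Fintype.card F : ℝ)⁻¹ * ∑ t, ‖f t‖ ^ 2)

open scoped Classical in
noncomputable def Cst (d q : ℕ) : ℝ :=
  (((q : ℝ) ^ d)⁻¹ * ∑ l ∈ (piAntidiag (univ : Finset (Fin d)) d).filter Antitone,
    ((d ! : ℝ) / ∏ i, (l i)!) ^ 2 *
      ((q ! : ℝ) / ∏ j ∈ range (d + 1), (#{i | l i = j} + if j = 0 then q - d else 0)!)) ^
    ((2 * d : ℝ)⁻¹)

theorem result (d p : ℕ) (hd : 2 ≤ d) (hp : p.Prime) (hdp : d < p) (F : Type) [Field F] [Fintype F]
    [CharP F p] (ψ : AddChar F ℂ) (hψ : ψ ≠ 1) :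
    (∀ f : F → ℂ, extNorm ψ d f ≤ Cst d (Fintype.card F) * l2Norm f) ∧
    (∃ f : F → ℂ, f ≠ 0 ∧ extNorm ψ d f = Cst d (Fintype.card F) * l2Norm f) ∧
    ∀ f : F → ℂ, f ≠ 0 →
      (extNorm ψ d f = Cst d (Fintype.card F) * l2Norm f ↔ ∃ c, ∀ t, ‖f t‖ = c) := by
  classical
  have hq : d ≤ Fintype.card F := by
    obtain ⟨n, -, h⟩ := FiniteField.card F p
    rw [h]
    exact hdp.le.trans (Nat.le_self_pow n.ne_zero p)
  have hq0 : (0 : ℝ) < Fintype.card F := by exact_mod_cast Fintype.card_pos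
  have hd0 : (0 : ℝ) < 2 * d := by have : (2 : ℝ) ≤ d := by exact_mod_cast hd
                                   linarith
  have hC : Cst d (Fintype.card F) =
      (((Fintype.card F : ℝ) ^ d)⁻¹ * Φ d (fun _ : F => 1)) ^ ((2 * d : ℝ)⁻¹) := by
    rw [Cst]
    congr 2
    convert (count hq).symm using 1
    obtain e := Fintype.equivFin F
    simp only [Φ, one_pow, prod_const_one, mul_one, NNReal.coe_sum, NNReal.coe_pow, NNReal.coe_natCast]
    refine sum_nbij' (· ∘ e.symm) (· ∘ e) (fun m hm => ?_) (fun m hm => ?_) (fun _ _ => by ext; simp)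
      (fun _ _ => by ext; simp) fun m _ => ?_
    · simpa [e.symm.sum_comp m] using hm
    · simpa [e.sum_comp m] using hm
    · simp only [multinomial, Function.comp, e.symm.sum_comp m, e.symm.prod_comp fun t => (m t)!]
  have key : ∀ f : F → ℂ, extNorm ψ d f ≤ Cst d (Fintype.card F) * l2Norm f ∧
      (extNorm ψ d f = Cst d (Fintype.card F) * l2Norm f ↔ ∃ c, ∀ t, ‖f t‖ = c) := by
    intro f
    obtain ⟨μ, hμ⟩ : ∃ μ : ℝ≥0, μ = (Fintype.card F : ℝ≥0)⁻¹ * ∑ t, ‖f t‖₊ ^ 2 := ⟨_, rfl⟩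
    have h0 : (Fintype.card F : ℝ≥0) ≠ 0 := by exact_mod_cast Fintype.card_ne_zero
    obtain ⟨s1, s2⟩ := schur hd (fun t => ‖f t‖₊ ^ 2) μ (by rw [hμ, mul_inv_cancel_left₀ h0])
    have e1 : extNorm ψ d f =
        (((Fintype.card F : ℝ) ^ d)⁻¹ * Φ d (fun t => ‖f t‖₊ ^ 2)) ^ ((2 * d : ℝ)⁻¹) := by
      have h := parseval (d := d) (fun k h1 h2 h3 => by
        have := Nat.le_of_dvd h1 ((CharP.cast_eq_zero_iff F p k).1 h3)
        omega) ψ hψ f
      rw [extNorm]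
      congr 1
      simp only [norm_mul, mul_pow, ← mul_sum, norm_inv, Complex.norm_natCast]
      convert congrArg (fun z => (Fintype.card F : ℝ)⁻¹ ^ (2 * d) * z) h using 1
      simp only [Φ]
      push_cast
      rw [inv_pow, two_mul, pow_add]
      field_simp
    have e2 : Cst d (Fintype.card F) * l2Norm f =
        (((Fintype.card F : ℝ) ^ d)⁻¹ * (μ ^ d * Φ d (fun _ : F => 1) : ℝ≥0)) ^ ((2 * d : ℝ)⁻¹) := by
      have : l2Norm f = ((μ : ℝ) ^ d) ^ ((2 * d : ℝ)⁻¹) := by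
        rw [l2Norm, Real.sqrt_eq_rpow, ← Real.rpow_natCast, ← Real.rpow_mul μ.coe_nonneg, hμ]
        push_cast
        congr 1
        field_simp
      rw [hC, this, ← Real.mul_rpow (by positivity) (by positivity)]
      push_cast
      ring_nf
    rw [e1, e2, Real.rpow_le_rpow_iff (by positivity) (by positivity) (inv_pos.2 hd0),
      Real.rpow_left_inj (by positivity) (by positivity) (inv_pos.2 hd0).ne',
      mul_right_inj' (by positivity), NNReal.coe_inj, s2]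
    refine ⟨mul_le_mul_of_nonneg_left (NNReal.coe_le_coe.2 s1) (by positivity),
      fun h => ⟨√μ, fun t => by rw [← h t]; simp⟩, fun ⟨c, h⟩ t => ?_⟩
    have : ∀ s, ‖f s‖₊ = ‖f t‖₊ := fun s => NNReal.eq ((h s).trans (h t).symm)
    simp [hμ, this, h0]
  exact ⟨fun f => (key f).1, ⟨1, one_ne_zero, (key 1).2.2 ⟨1, by simp⟩⟩, fun f _ => (key f).2⟩

end Pool.Agent.Results.MP_110370_an.Yes
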